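import Pool.Agent.H741.EL.Stm

set_option autoImplicit false

/-! The difference of two convex bodies which touch in one point is simply connected (project EL). -/

open MeasureTheory Metric Set Filter Topology

namespace Pool.Agent.H25.EL

section core

variable {V : Type} [NormedAddCommGroup V] [NormedSpace ℝ V]

/-- complement of a closed ray -/
def slit (q : V) : Set V := {w | ∀ s : ℝ, 0 ≤ s → w ≠ s • q}

theorem slit_ne {q w : V} (h : w ∈ slit q) : w ≠ 0 := by
  have := h 0 le_rfl
  rwa [zero_smul] at this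

theorem slit_smul {q w : V} (h : w ∈ slit q) {c : ℝ} (hc : 0 < c) : c • w ∈ slit q := by
  intro s hs e
  apply h (c⁻¹ * s) (by positivity)
  rw [mul_smul, ← e, smul_smul, inv_mul_cancel₀ hc.ne', one_smul]

theorem slit_neg {q : V} (hq : q ≠ 0) : -q ∈ slit q := by
  intro s hs e
  have h1 : (s + 1) • q = 0 := by
    rw [add_smul, one_smul, ← e, neg_add_cancel]
  rcases smul_eq_zero.mp h1 with h2 | h2
  · linarith
  · exact hq h2

theorem slit_star {q : V} (hq : q ≠ 0) : StarConvex ℝ (-q) (slit q) := by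
  intro w hw a b ha hb hab s hs e
  rcases hb.eq_or_lt with h0 | h0
  · have ha1 : a = 1 := by linarith
    rw [← h0, ha1, one_smul, zero_smul, add_zero] at e
    exact slit_neg hq s hs e
  · apply hw (b⁻¹ * (s + a)) (by positivity)
    have h1 : b • w = (s + a) • q := by
      rw [add_smul, ← e]
      rw [smul_neg]
      abel
    rw [mul_smul, ← h1, smul_smul, inv_mul_cancel₀ h0.ne', one_smul]

theorem slit_contractible {q : V} (hq : q ≠ 0) : ContractibleSpace ↥(slit q) :=
  (slit_star hq).contractibleSpace ⟨_, slit_neg hq⟩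

theorem core (g h : V → ℝ) (hg : Continuous g) (hh : Continuous h)
    (hgs : ∀ c : ℝ, 0 ≤ c → ∀ z, g (c • z) = c * g z)
    (hhs : ∀ c : ℝ, 0 ≤ c → ∀ z, h (c • z) = c * h z)
    (q : V) (hq : q ≠ 0) (hgq : g q = 1) (hhq : h q = 1)
    (hlt : ∀ w ∈ slit q, h w < g w) (hpos : ∀ w, w ≠ 0 → 0 < h w) :
    ContractibleSpace ↥{z : V | h z < 1 ∧ 1 < g z} := by
  have hslit : ∀ z : V, h z < 1 ∧ 1 < g z → z ∈ slit q := by
    rintro z ⟨h1, h2⟩ s hs e
    rw [e, hhs s hs, hhq] at h1
    rw [e, hgs s hs, hgq] at h2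
    linarith
  have hn : ∀ z ∈ slit q, 0 < ‖z‖ := fun z hz => norm_pos_iff.mpr (slit_ne hz)
  have hgpos : ∀ z ∈ slit q, 0 < g z := fun z hz => (hpos z (slit_ne hz)).trans (hlt z hz)
  have hF : ∀ z : V, h z < 1 ∧ 1 < g z → 0 < (g z - 1) / ((1 - h z) * ‖z‖) := by
    intro z hz
    have h1 := hn z (hslit z hz)
    have h2 : 0 < g z - 1 := by linarith [hz.2]
    have h3 : 0 < 1 - h z := by linarith [hz.1]
    positivity
  have hD : ∀ w ∈ slit q, 0 < g w + ‖w‖ * h w := by
    intro w hw
    have h1 := hn w hw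
    have h2 := hgpos w hw
    have h3 := hpos w (slit_ne hw)
    positivity
  have hG : ∀ w ∈ slit q, 0 < (1 + ‖w‖) / (g w + ‖w‖ * h w) := by
    intro w hw
    have h1 := hn w hw
    have h2 := hD w hw
    positivity
  have hGm : ∀ w ∈ slit q, h (((1 + ‖w‖) / (g w + ‖w‖ * h w)) • w) < 1 ∧
      1 < g (((1 + ‖w‖) / (g w + ‖w‖ * h w)) • w) := by
    intro w hw
    have h1 := hn w hw
    have h2 := hD w hw
    have h3 := hlt w hw
    rw [hhs _ (hG w hw).le, hgs _ (hG w hw).le, div_mul_eq_mul_div, div_mul_eq_mul_div,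
      div_lt_one h2, one_lt_div h2]
    constructor <;> nlinarith
  have hFm : ∀ z : V, h z < 1 ∧ 1 < g z → ((g z - 1) / ((1 - h z) * ‖z‖)) • z ∈ slit q :=
    fun z hz => slit_smul (hslit z hz) (hF z hz)
  have hcont : ContractibleSpace ↥(slit q) := slit_contractible hq
  let e : ↥{z : V | h z < 1 ∧ 1 < g z} ≃ₜ ↥(slit q) :=
    { toFun := fun z => ⟨((g (z : V) - 1) / ((1 - h (z : V)) * ‖(z : V)‖)) • (z : V), hFm z z.2⟩
      invFun := fun w => ⟨((1 + ‖(w : V)‖) / (g (w : V) + ‖(w : V)‖ * h (w : V))) • (w : V),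
        hGm w w.2⟩
      left_inv := by
        rintro ⟨z, hz⟩
        apply Subtype.ext
        simp only
        have h1 := hn z (hslit z hz)
        have h2 : 0 < g z - 1 := by linarith [hz.2]
        have h3 : 0 < 1 - h z := by linarith [hz.1]
        have h4 := hF z hz
        rw [norm_smul, Real.norm_of_nonneg h4.le, hgs _ h4.le, hhs _ h4.le, smul_smul]
        have h5 : 0 < g z - h z := by linarith
        have h6 : (g z - 1) / ((1 - h z) * ‖z‖) * ‖z‖ = (g z - 1) / (1 - h z) := by
          field_simp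
        rw [h6]
        have h7 : (1 + (g z - 1) / (1 - h z)) /
            ((g z - 1) / ((1 - h z) * ‖z‖) * g z + (g z - 1) / (1 - h z) *
              ((g z - 1) / ((1 - h z) * ‖z‖) * h z)) * ((g z - 1) / ((1 - h z) * ‖z‖)) = 1 := by
          have e1 : 1 + (g z - 1) / (1 - h z) = (g z - h z) / (1 - h z) := by
            field_simp
            ring
          have e2 : (g z - 1) / ((1 - h z) * ‖z‖) * g z + (g z - 1) / (1 - h z) *
              ((g z - 1) / ((1 - h z) * ‖z‖) * h z) =
              (g z - 1) / ((1 - h z) * ‖z‖) * ((g z - h z) / (1 - h z)) := by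
            field_simp
            ring
          rw [e1, e2]
          field_simp
        rw [h7, one_smul]
      right_inv := by
        rintro ⟨w, hw⟩
        apply Subtype.ext
        simp only
        have h1 := hn w hw
        have h2 := hD w hw
        have h3 := hlt w hw
        have h4 := hG w hw
        rw [norm_smul, Real.norm_of_nonneg h4.le, hgs _ h4.le, hhs _ h4.le, smul_smul]
        have h5 : 0 < g w - h w := by linarith
        have e1 : (1 + ‖w‖) / (g w + ‖w‖ * h w) * g w - 1 =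
            ‖w‖ * (g w - h w) / (g w + ‖w‖ * h w) := by
          field_simp
          ring
        have e2 : 1 - (1 + ‖w‖) / (g w + ‖w‖ * h w) * h w =
            (g w - h w) / (g w + ‖w‖ * h w) := by
          field_simp
          ring
        rw [e1, e2]
        have e3 : ‖w‖ * (g w - h w) / (g w + ‖w‖ * h w) /
            ((g w - h w) / (g w + ‖w‖ * h w) * ((1 + ‖w‖) / (g w + ‖w‖ * h w) * ‖w‖)) *
              ((1 + ‖w‖) / (g w + ‖w‖ * h w)) = 1 := by
          field_simp
        rw [e3, one_smul]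
      continuous_toFun := by
        refine Continuous.subtype_mk ?_ _
        refine Continuous.smul ?_ continuous_subtype_val
        refine Continuous.div ?_ ?_ ?_
        · exact (hg.comp continuous_subtype_val).sub continuous_const
        · exact (continuous_const.sub (hh.comp continuous_subtype_val)).mul
            continuous_subtype_val.norm
        · rintro ⟨z, hz⟩
          have h1 := hn z (hslit z hz)
          have h3 : 0 < 1 - h z := by linarith [hz.1]
          exact (mul_pos h3 h1).ne'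
      continuous_invFun := by
        refine Continuous.subtype_mk ?_ _
        refine Continuous.smul ?_ continuous_subtype_val
        refine Continuous.div ?_ ?_ ?_
        · exact continuous_const.add continuous_subtype_val.norm
        · exact (hg.comp continuous_subtype_val).add
            (continuous_subtype_val.norm.mul (hh.comp continuous_subtype_val))
        · rintro ⟨w, hw⟩
          exact (hD w hw).ne' }
  exact e.contractibleSpace

end core

open Pool.Agent.Y508 Pool.Agent.H741.EL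

theorem t_SC : S_SC := by
  intro E K p hE hK hKE hp
  obtain ⟨o, ho⟩ := hK.int
  have hoE : o ∈ interior E := interior_mono hKE ho
  have hKc : IsClosed K := hK.cpt.isClosed
  have hEc : IsClosed E := hE.cpt.isClosed
  obtain ⟨K0, hK0⟩ : ∃ K0 : Set E2, K0 = (fun z => o + z) ⁻¹' K := ⟨_, rfl⟩
  obtain ⟨E0, hE0⟩ : ∃ E0 : Set E2, E0 = (fun z => o + z) ⁻¹' E := ⟨_, rfl⟩
  have hmK : ∀ z, z ∈ K0 ↔ o + z ∈ K := fun z => by rw [hK0]; exact Iff.rfl
  have hmE : ∀ z, z ∈ E0 ↔ o + z ∈ E := fun z => by rw [hE0]; exact Iff.rfl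
  have hKE0 : K0 ⊆ E0 := fun z hz => (hmE z).mpr (hKE ((hmK z).mp hz))
  have hiE : ∀ z, z ∈ interior E0 ↔ o + z ∈ interior E := by
    intro z
    rw [hE0]
    have h1 := (Homeomorph.addLeft o).preimage_interior E
    exact (Set.ext_iff.mp h1 z).symm
  have hiK : ∀ z, z ∈ interior K0 ↔ o + z ∈ interior K := by
    intro z
    rw [hK0]
    have h1 := (Homeomorph.addLeft o).preimage_interior K
    exact (Set.ext_iff.mp h1 z).symm
  have hcK : IsClosed K0 := by
    rw [hK0]
    exact hKc.preimage (by fun_prop)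
  have hcE : IsClosed E0 := by
    rw [hE0]
    exact hEc.preimage (by fun_prop)
  have hvK : Convex ℝ K0 := by
    rw [hK0]
    exact hK.cvx.translate_preimage_right o
  have hvE : Convex ℝ E0 := by
    rw [hE0]
    exact hE.cvx.translate_preimage_right o
  have h0K : K0 ∈ 𝓝 (0 : E2) := by
    rw [mem_interior_iff_mem_nhds.symm, hiK, add_zero]
    exact ho
  have h0E : E0 ∈ 𝓝 (0 : E2) := Filter.mem_of_superset h0K hKE0
  have hbE : Bornology.IsBounded E0 := by
    have h1 : E0 = (Homeomorph.addLeft o).symm '' E := by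
      rw [(Homeomorph.addLeft o).image_symm, hE0]
      rfl
    rw [h1]
    exact (hE.cpt.image (Homeomorph.addLeft o).symm.continuous).isBounded
  have hle : ∀ z, gauge E0 z ≤ gauge K0 z := fun z =>
    gauge_mono (absorbent_nhds_zero h0K) hKE0 z
  have hpos : ∀ w : E2, w ≠ 0 → 0 < gauge E0 w := fun w hw =>
    (gauge_pos (absorbent_nhds_zero h0E) (NormedSpace.isVonNBounded_of_isBounded ℝ hbE)).mpr hw
  have hpK : p ∈ K ∩ frontier E := by
    rw [hp]
    exact mem_singleton p
  obtain ⟨q, hq⟩ : ∃ q : E2, q = p - o := ⟨_, rfl⟩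
  have hoq : o + q = p := by
    rw [hq]
    abel
  have hpE : p ∉ interior E := by
    have := hpK.2
    rw [hEc.frontier_eq] at this
    exact this.2
  have hq0 : q ≠ 0 := by
    rintro rfl
    rw [add_zero] at hoq
    rw [← hoq] at hpE
    exact hpE hoE
  have hgs : ∀ (s : Set E2) (c : ℝ), 0 ≤ c → ∀ z, gauge s (c • z) = c * gauge s z := by
    intro s c hc z
    rw [gauge_smul_of_nonneg hc, smul_eq_mul]
  have hgE1 : ∀ z, gauge E0 z < 1 ↔ o + z ∈ interior E := fun z => by
    rw [gauge_lt_one_iff_mem_interior hvE h0E, hiE]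
  have hgK1 : ∀ z, gauge K0 z ≤ 1 ↔ o + z ∈ K := fun z => by
    rw [gauge_le_one_iff_mem_closure hvK h0K, hcK.closure_eq, hmK]
  have hhq : 1 ≤ gauge E0 q := by
    by_contra h1
    rw [not_le, hgE1, hoq] at h1
    exact hpE h1
  have hgq : gauge K0 q ≤ 1 := by
    rw [hgK1, hoq]
    exact hpK.1
  have hlt : ∀ w ∈ slit q, gauge E0 w < gauge K0 w := by
    intro w hw
    by_contra h1
    have h2 : gauge E0 w = gauge K0 w := le_antisymm (hle w) (not_lt.mp h1)
    have hs := hpos w (slit_ne hw)
    obtain ⟨s, hse⟩ : ∃ s : ℝ, s = gauge E0 w := ⟨_, rfl⟩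
    rw [← hse] at hs
    have h3 : gauge K0 (s⁻¹ • w) ≤ 1 := by
      rw [hgs _ _ (inv_nonneg.mpr hs.le), ← h2, ← hse, inv_mul_cancel₀ hs.ne']
    have h4 : ¬ gauge E0 (s⁻¹ • w) < 1 := by
      rw [hgs _ _ (inv_nonneg.mpr hs.le), ← hse, inv_mul_cancel₀ hs.ne']
      exact lt_irrefl _
    rw [hgK1] at h3
    rw [hgE1] at h4
    have h5 : o + s⁻¹ • w ∈ K ∩ frontier E := by
      refine ⟨h3, ?_⟩
      rw [hEc.frontier_eq]
      exact ⟨hKE h3, h4⟩
    rw [hp, mem_singleton_iff, ← hoq] at h5
    have h6 : s⁻¹ • w = q := add_left_cancel h5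
    apply hw s hs.le
    rw [← h6, smul_smul, mul_inv_cancel₀ hs.ne', one_smul]
  have hcore : ContractibleSpace ↥{z : E2 | gauge E0 z < 1 ∧ 1 < gauge K0 z} :=
    core (gauge K0) (gauge E0) (continuous_gauge hvK h0K) (continuous_gauge hvE h0E)
      (hgs K0) (hgs E0) q hq0 (le_antisymm hgq (hhq.trans (hle q)))
      (le_antisymm ((hle q).trans hgq) hhq) hlt hpos
  let e : ↥(interior E \ K) ≃ₜ ↥{z : E2 | gauge E0 z < 1 ∧ 1 < gauge K0 z} :=
    (Homeomorph.addLeft (-o)).subtype (by
      intro x
      show (x ∈ interior E ∧ x ∉ K) ↔ (gauge E0 (-o + x) < 1 ∧ 1 < gauge K0 (-o + x))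
      rw [hgE1, ← not_le, hgK1, add_neg_cancel_left])
  have h1 : ContractibleSpace ↥(interior E \ K) := e.contractibleSpace
  infer_instance

end Pool.Agent.H25.EL
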